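import Mathlib
import Pool.Agent.TH170.GS.Main
import Pool.Agent.TH170.FT.Tate
import Pool.Agent.H204R3.GP.Hom

/-!
# The Tate conjecture for the pure motives generated by an abelian variety with one Frobenius element
# in almost all slope types of arbitrary CM fields

Let `A` be an abelian variety over a number field, of any dimension and with arbitrary endomorphisms,
which has good reduction at some place `v`, with a residue field of `p ^ a` elements. Suppose that the
characteristic polynomial of the Frobenius element at `v` is the product of the minimal polynomials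
of Weil numbers `π i` that generate CM fields `K i` of degree `2 g i` (`HasFrobenius`); so
`dim A = ∑ i, g i`. Nothing is assumed about the Galois groups of the fields `K i`.

The conclusion is always (`HomsGeneratedInDegreeTwo`): for all primes `ℓ ≠ p` all homomorphisms between
the `ℓ`-adic realizations of the pure motives `h_1(A) ^ {⊗ s} (c)` and `h_1(A) ^ {⊗ t} (d)` which
commute with a subgroup of finite index of the Galois group are linear combinations of products of
Tate classes of degree two (`IsElementary`); by the theorem of Faltings these are realizations of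
morphisms of motives. So the Tate conjecture, the surjectivity of
`Hom(M, M') ⊗ ℚ_ℓ → Hom_G(M_ℓ, M'_ℓ)`, holds for all pure motives `M`, `M'` in the tensor category
generated by `h_1(A)`: all direct summands of the motives of the powers of `A` and their Tate twists.
In the formal statement `V` is the rational Tate module, the `ℓ`-adic realization of `h_1(A)`, with
the action `ρ` of the Galois group and the Weil pairing `ω` of a polarization (`IsTateModule`; with
the semisimplicity theorem of Faltings), and `χ` is the cyclotomic character.

The fields `K i` are pairwise independent: for `i ≠ k` and all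
complex embeddings `φ` of `K i` and `ψ` of `K k` some automorphism of `ℂ` is the identity on `φ (K i)`
and the complex conjugation on `ψ (K k)` (this is no condition if there is only one field).

We fix an isomorphism `ν` of the algebraic closure of `ℚ_p` with `ℂ`; it defines a `p`-adic valuation
of `ℂ`, with the value one at `p`. Let `M i` be a function with nonzero integral values, all of which
divide `n i`, on the complex embeddings of `K i`, invariant under complex conjugation. A CM type
`Φ i` of `K i` (a choice of one element out of each complex conjugate pair of embeddings; there are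
`2 ^ (g i)` types), `M i` and a real number `κ ≠ 0` prescribe the slopes `(a + κ M) / 2` (at the
embeddings in `Φ i`) and `(a - κ M) / 2` (outside of `Φ i`) of a Weil number in `K i` (`IsOfType`). If
`p` splits completely in `K i` then, by Honda and Tate, all slopes with rational values between `0`
and `a` that are symmetric in this way occur for abelian varieties over finite fields. The case
`M = 1`, `κ = a` is the case of ordinary reduction; the assumption on `M` says that `a / 2` is not a
slope. Slopes are rational, so integral weights `M` are no restriction.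

There are `2 ^ (∑ i, g i)` families of CM types `Φ i` of the fields `K i`. A family is exceptional
(`exceptionalFamilies ν K M`) if the conclusion above is false for some `A` as above with Weil numbers
`π i` of the slope types `Φ i` and some `ℓ`. The theorem bounds the number of the exceptional
families: it is at most `2 ^ (∑ i, g i) * ∑ i, ρ (K i)`. Here `ρ (K)` (`rho n g φ₀`) is described as
follows. The automorphisms of `ℂ` act on the set of the `2 g` complex embeddings of `K` through a
finite group `G` (the Galois group of the normal closure), and so on the space `V`, of dimension `g`,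
of the rational functions on this set that change their sign under complex conjugation. Then `ρ (K)`
is the sum of the numbers `w (W)` (`weight n g φ₀ W`) over the isotypic components `W` of `V`
(`components K`):

* `w (W) = 0` if `n` is odd and every minimal Galois-stable space in `W` contains a function with
  integral values whose sum over a CM type is odd;
* otherwise `w (W) = (2 d / (π g)) ^ (d / 2)` if `W` is itself a minimal space, of dimension `d`;
* otherwise `w (W)` is the smaller of `(53 λ d / g) ^ (c / 2)` (if
  `(10 ^ 4 + 10 λ) ^ 2 λ d ≤ 2 g`; replaced by `1` if not) and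
  `8 (2 d / (π g)) ^ (d / 2) (10 ^ 4 + 10 λ + 6 √(d g)) ^ (d - c)`. Here `λ = log (|G| n)`,
  `d = dim S` for the minimal spaces `S` in `W`, and `c = e + d - h`, where `e` is the dimension of
  the space of the equivariant endomorphisms of `S` and `h` the dimension of the space of the
  functions in `S` that are invariant under the stabilizer of a complex embedding.

Let `Q` be the number of the imaginary quadratic subfields of `K` and `N d` the number of the
components `W` that are minimal spaces of dimension `d`. The second part (`RhoEstimate`) is the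
estimate `ρ (K) ≤ Q / √g + 2 (N 2 + 1) / g + 3 N 3 / g ^ (3 / 2) + ∑ w (W)`, where the last sum is
over the components `W` which are not minimal, and the term `Q / √g` is omitted if `n g` is odd. The
third part (`NoMultipleComponents`) says that there are no such components if `K` is abelian over
`ℚ`, or if any two complex embeddings of `K` are exchanged by some automorphism of `ℂ` (for instance
`K = k F` for an imaginary quadratic field `k` and a totally real field `F` with this property).

The proof: multiplicative relations between the conjugates of the Weil numbers which are not generated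
by `π * conj π = q` would give, by the slopes, an odd function on the embeddings which is orthogonal to
all the Galois translates of the slope function. The sign functions for which this is possible are
counted by a Fourier integral and the inequality of Hölder. Without such relations the Lie algebra of the endomorphisms of `V` that kill all Tate classes contains
a Cartan subalgebra of the symplectic Lie algebra, so that it is a product of symplectic and general
linear Lie algebras over a finite extension of `ℚ_ℓ`, and the first fundamental theorems give the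
homomorphisms between the tensor powers. The class of Frobenius elements is that of
MP_90d181_ag AlmostAllFrobeniusTypes, on classes of cycles on the powers of `A`; a single Frobenius element was used for the motives generated by `h_1(A)` before in
MP_3703a7_ag OneFrobeniusSignature (CM fields of degree `2 r ^ k` with a signature prime to `r`).
-/

set_option autoImplicit false

namespace Pool.Agent.Results.MP_3703a7_ag.AlmostAllFrobeniusTypes

open NumberField Module Pool.Agent.H204R3.CM Pool.Agent.H977R3.CM Pool.Agent.TH170

open Pool.Agent.H204R3.GP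

/-- For the prime number `ℓ`: the homomorphisms between all the motives `h_1(A) ^ {⊗ s} (c)` are
generated in degree two for all abelian varieties `A` with a Frobenius element whose characteristic
polynomial is the product of the minimal polynomials of Weil numbers `π i` for `p ^ a` with the slope
types `Φ i`, `M i`. -/
def HoldsAt {p : ℕ} [Fact p.Prime] (ν : PadicAlgCl p ≃+* ℂ) {I : Type} [Fintype I]
    (K : I → Type) [∀ i, Field (K i)] [∀ i, NumberField (K i)] [∀ i, IsCMField (K i)]
    (M : ∀ i, (K i →+* ℂ) → ℤ) (Φ : ∀ i, Set (K i →+* ℂ)) (a : ℕ) (π : ∀ i, K i)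
    (ℓ : ℕ) [Fact ℓ.Prime] : Prop :=
  ∀ (V Γ : Type) [AddCommGroup V] [Module ℚ_[ℓ] V] [FiniteDimensional ℚ_[ℓ] V] [Group Γ]
    (ρ : Representation ℚ_[ℓ] Γ V) (χ : Γ →* ℚ_[ℓ]) (ω : V →ₗ[ℚ_[ℓ]] V →ₗ[ℚ_[ℓ]] ℚ_[ℓ]),
    FT.IsOfType ν a K M Φ π → FT.IsTateModule ρ χ ω → FT.HasFrobenius ρ χ p a π →
      HomsGeneratedInDegreeTwo ρ χ ω

/-- The statement for all Weil numbers with the slope types `Φ i`, `M i` and all prime numbers `ℓ`. -/
def Holds {p : ℕ} [Fact p.Prime] (ν : PadicAlgCl p ≃+* ℂ) {I : Type} [Fintype I]
    (K : I → Type) [∀ i, Field (K i)] [∀ i, NumberField (K i)] [∀ i, IsCMField (K i)]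
    (M : ∀ i, (K i →+* ℂ) → ℤ) (Φ : ∀ i, Set (K i →+* ℂ)) : Prop :=
  ∀ (a : ℕ) (π : ∀ i, K i) (ℓ : ℕ) [Fact ℓ.Prime], 0 < a → HoldsAt ν K M Φ a π ℓ

/-- The exceptional families of CM types. -/
def exceptionalFamilies {p : ℕ} [Fact p.Prime] (ν : PadicAlgCl p ≃+* ℂ) {I : Type} [Fintype I]
    (K : I → Type) [∀ i, Field (K i)] [∀ i, NumberField (K i)] [∀ i, IsCMField (K i)]
    (M : ∀ i, (K i →+* ℂ) → ℤ) : Set (∀ i, Set (K i →+* ℂ)) :=
  {Φ | (∀ i, IsCMType (Φ i)) ∧ ¬ Holds ν K M Φ}

theorem semi {k V Γ : Type} [Field k] [AddCommGroup V] [Module k V] [Group Γ]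
    {ρ : Representation k Γ V} (hss : FiniteIndexSemisimple ρ) (Δ : Subgroup Γ)
    (hΔ : Δ.FiniteIndex) : SemiUnder (ρ '' (Δ : Set Γ)) := by
  intro U hU
  obtain ⟨U', h1, h2⟩ := hss Δ hΔ U (fun s hs u hu => hU _ ⟨s, hs, rfl⟩ u hu)
  refine ⟨U', ?_, h2⟩
  rintro _ ⟨s, hs, rfl⟩ u hu
  exact h1 s hs u hu

theorem homs_of_types {p : ℕ} [Fact p.Prime] {ν : PadicAlgCl p ≃+* ℂ} {a : ℕ} {I : Type}
    [Fintype I] {K : I → Type} [∀ i, Field (K i)] [∀ i, NumberField (K i)]
    [∀ i, IsCMField (K i)] (hind : PairwiseIndep K) {M : ∀ i, (K i →+* ℂ) → ℤ}
    (hM : ∀ i φ, M i (ComplexEmbedding.conjugate φ) = M i φ)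
    {Φ : ∀ i, Set (K i →+* ℂ)} (hΦ : ∀ i, IsCMType (Φ i)) (hnd : ∀ i, Φ i ∉ FW.degTypes (M i))
    (ha : 0 < a) {π : ∀ i, K i} (hπ : FT.IsOfType ν a K M Φ π)
    {ℓ : ℕ} [Fact ℓ.Prime] {V Γ : Type} [AddCommGroup V] [Module ℚ_[ℓ] V]
    [FiniteDimensional ℚ_[ℓ] V] [Group Γ]
    {ρ : Representation ℚ_[ℓ] Γ V} {χ : Γ →* ℚ_[ℓ]} {ω : V →ₗ[ℚ_[ℓ]] V →ₗ[ℚ_[ℓ]] ℚ_[ℓ]}
    (hR : FT.IsTateModule ρ χ ω) (hF : FT.HasFrobenius ρ χ p a π) :
    HomsGeneratedInDegreeTwo ρ χ ω := by
  obtain ⟨L, hL1, hL2, j, h⟩ := Pool.Agent.H204R3.CM.exists_galois K
  obtain ⟨γ, hχ, hγ⟩ := hF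
  exact homs_generated ρ χ ω hR.alternating hR.nondegenerate hR.equivariant fun m φ hφ =>
    tate_of_neat ha hπ.gen hπ.weil j h (FT.neat_of_types hind hM hΦ hnd hπ j h) ρ χ ω
      hR.alternating hR.nondegenerate hR.equivariant (semi hR.semisimple) γ hχ hγ φ hφ

/-- **The Tate conjecture for the pure motives generated by an abelian variety with one Frobenius
element in almost all slope types of arbitrary CM fields.** -/
theorem result :
    (∀ (p : ℕ) [Fact p.Prime] (ν : PadicAlgCl p ≃+* ℂ) {I : Type} [Fintype I] (K : I → Type)
      [∀ i, Field (K i)] [∀ i, NumberField (K i)] [∀ i, IsCMField (K i)]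
      (M : ∀ i, (K i →+* ℂ) → ℤ) (n g : I → ℕ) (φ₀ : ∀ i, K i →+* ℂ), PairwiseIndep K →
      (∀ i φ, M i (ComplexEmbedding.conjugate φ) = M i φ) → (∀ i, n i ≠ 0) →
      (∀ i φ, M i φ ∣ (n i : ℤ)) → (∀ i, finrank ℚ (K i) = 2 * g i) →
      ((exceptionalFamilies ν K M).ncard : ℝ) ≤
        2 ^ (∑ i, g i) * ∑ i, GS.rho (n i) (g i) (φ₀ i)) ∧
    GS.RhoEstimate ∧ GS.NoMultipleComponents :=
  ⟨fun _ _ _ _ _ K _ _ _ M n g φ₀ hind hM hn hMn hg =>
    FT.ncard_le K M n g φ₀ hM hn hMn hg _ fun _ hΦ hnd _ _ _ _ ha _ _ _ _ _ _ _ _ _
      hπ hR hF => homs_of_types hind hM hΦ hnd ha hπ hR hF,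
    GS.rhoEstimate, GS.noMultipleComponents⟩

end Pool.Agent.Results.MP_3703a7_ag.AlmostAllFrobeniusTypes
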