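import Pool.Agent.K3h45.MU.Family

/-!
# The Tate conjecture for products of powers of varieties with maximally unipotent reduction

Let `W` be a Weil cohomology theory with algebraically closed coefficients (étale cohomology with
coefficients in the closure of `ℚ_ℓ`) on a class of smooth proper varieties over the algebraic
closure of a number field `F`, with an action of a group `Γ` (the Galois group of `F`) on the
cohomology of the varieties under consideration; `χ` is the character by which `Γ` acts on the
inverse of the Tate twist.

Let `X_i` be varieties of odd dimension for which numerical and homological equivalence coincide and
whose transcendental cohomology `T_i` (the orthogonal complement of all algebraic classes) is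
concentrated in the middle degree. **Nothing is assumed about the irreducibility or the
semisimplicity of the Galois representation `T_i`.** For every `i` let there be a place at which `X_i`
has maximally unipotent reduction and `Z` and the `X_j` with `j ≠ i` have good reduction. What is used
of this place is the following:

* an element `g_i` of `Γ` (a generator of the tame inertia) acts on `T_i` by a unipotent map with only
  one Jordan block (`dim T_i = D + 1` and `(g_i - 1) ^ D ≠ 0`) and trivially on the cohomology of `Z`,
  on the cohomology of the `X_j` with `j ≠ i` and by `χ`;
* an element `φ_i` of `Γ` (a Frobenius element of the place) satisfies `φ_i g_i = g_i ^ q φ_i` on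
  `T_i`, for some integer `q ≥ 2`, and is pure on the cohomology of `Z` and of the `X_j` with
  `j ≠ i`: its eigenvalues `a` in degree `m` satisfy `|a| ^ 2 = |χ(φ_i)| ^ m` (Deligne).

Finally let `T_i` have dimension two or let some element `F_i` of `Γ` (a Frobenius element at another
place) be such that the eigenvalues of `F_i` on `T_i` are not a geometric progression
`c, c a, c a ^ 2, …, c a ^ D`. (If all elements of `Γ` act with such eigenvalues, as for the symmetric
powers of a representation of dimension two, the powers of `X_i` have further Tate classes.)

Then the Tate conjecture, for cycles of all codimensions, holds for the product of `Z` with arbitrary
powers of the `X_i` if and only if it holds for `Z`. In particular (`Z` a point) it holds for all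
powers of a Calabi-Yau threefold `X` over a number field with `h^{2,1} = 1` (a member of the mirror
family of the quintic threefolds, say), if numerical and homological equivalence coincide for `X`,
if `X` has maximally unipotent reduction at some finite place and if the characteristic polynomial
of one Frobenius element on `H ^ 3` is not of the form `∏ (x - c a ^ i)`.

The proof: let `e` be the logarithm of `g_i` on `T = T_i`. The relation with the Frobenius element
`φ = φ_i` shows that `φ` has an eigenvector `w` with `e ^ D w ≠ 0`, so that the vectors `e ^ j w`
are a basis of eigenvectors of `φ` with eigenvalues `λ q ^ j`, and `e` is a member of a triple
`(e, h, f)` for this basis. Let `L` be the Lie algebra of the skew operators on `T` which kill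
all the multilinear maps from `T` to a graded piece of the cohomology of the other factors which are
equivariant under some subgroup of finite index; `e` is in `L`, as `g_i` acts trivially on the other
factors. An equivariant multilinear map does not vanish only on basis vectors for which the
weights of `φ` on both sides are the same; purity of the other factors shows that this is the
condition that `h` kills the map, so `h` is in `L`, and `f` is in `L` by the representation theory of
`sl_2`. So `L` is a module under the principal `sl_2` and contains, if it is larger than it, an odd
power `e ^ k` with `k ≥ 3`; commutators with `f` then show that `L` is the whole symplectic Lie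
algebra. If `L` is the principal `sl_2`, it is normalized by all elements of `Γ`, and all of them
have eigenvalues which are a geometric progression. The first fundamental theorem for the symplectic
Lie algebra shows that the Tate classes are combinations of products of algebraic classes on the
factors `X_i`, of the transcendental parts of the diagonals of pairs of factors `X_i` and of Tate
classes of the remaining factor.
-/

universe u

namespace Pool.Agent.Results.MP_3703a7_ag.MaximallyUnipotentPowers

open Pool.Agent.H914 Pool.Agent.H281R3.HT Pool.Agent.TH125.Gal Pool.Agent.K3h45.MU

/-- **The Tate conjecture for products of powers of varieties with maximally unipotent
reduction.** -/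
theorem result {k : Type u} [Field k] {𝒱 : VarClass k} {ops : CycleOps 𝒱}
    (W : WeilCohomology.{u, 0} ops) [IsAlgClosed W.K] {Γ : Type} [Group Γ] (χ : Γ →* W.Kˣ)
    {ι : Type} (X : ι → GVar W Γ) (Z : GVar W Γ) (h : MaxUnipotentFamily χ X Z) (S : Set ι)
    (Y : GVar W Γ) (hY : GTower X Z S Y) : TateConjecture χ Y ↔ TateConjecture χ Z :=
  tate_mu h hY

end Pool.Agent.Results.MP_3703a7_ag.MaximallyUnipotentPowers
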