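import Pool.Agent.K3h32.PD.Fin0
import Pool.Agent.Y405.ZO.Frob
import Pool.Agent.Y484.ZI.IntRes
import Pool.Agent.Y726.ZI.Cheb
import Pool.Agent.Y681.ZI.Dens
import Pool.Agent.Y537.ZI.Multi
import Pool.Agent.Y614.ZD.Badd
import Pool.Agent.Y100.ZD.Sub
import Pool.Agent.Y255.SS.LF
import Pool.Agent.Y297.SS.CF
import Pool.Agent.Y708.SS.Loc
import Pool.Agent.Y936.SS.Logr
import Pool.Agent.Y518.SS.Krs
import Pool.Agent.Y737.SS.Chara
import Pool.Agent.Y932.SI.Subf
import Pool.Agent.Y421.SI.EF
import Pool.Agent.Y641.SI.Trd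
import Pool.Agent.Y949.SI.Ende

/-!
# The Tate conjecture for products of motives of all types at 100 percent of the primes `ℓ`

Let `X_1, ..., X_r` be smooth projective varieties over a number field (or a finitely generated field of
characteristic zero) and let `V_{i,ℓ}`, for all primes `ℓ`, be a direct factor of the `ℓ`-adic cohomology
of `X_i` (of any degree, with any Hodge numbers; the degrees may be different for different `i`) which is cut
out by algebraic correspondences and on which a number field `E_i`, Galois over `ℚ`, acts by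
correspondences. `V_{i,ℓ}` is free of rank `n_i` over `E_i ⊗ ℚ_ℓ`. The form `J_{i,ℓ}` on `V_{i,ℓ}` given by a
polarization is symmetric or alternating, and it induces on `E_i` an involution `bar_i`. At the places `v` of
good reduction the geometric Frobenius element has a characteristic polynomial `P_{i,v}` with rational
coefficients and a multiplier `q_{i,v}`, independent of `ℓ`. There are three types of summands:
* symplectic: `bar_i = 1` (real multiplication; `E_i = ℚ` is allowed), `J_i` is alternating;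
* orthogonal: `bar_i = 1` and `J_i` is symmetric;
* unitary: `bar_i ≠ 1` (complex multiplication), `J_i` is alternating or symmetric.

**Theorem.** Suppose that
(1) for some place `w_0` of good reduction the roots of the product of the `P_{i,w_0}` are simple, and for
roots `x ≠ y` of `P_{i,w_0}` and roots `z`, `u` of `P_{j,w_0}`, `x / y = z / u` only if `i = j` and
`(z, u) = (x, y)` or `(z, u) = (q_i / y, q_i / x)`;
(2) for every `i` (as in the theorem on endomorphisms of motives at 100 percent of the primes)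
`u_0, ..., u_m` are places of good reduction such that the roots of `P_{i,u}` are simple and no quotient
of two different roots is a root of unity, `F` is the intersection of the splitting fields of these
polynomials, and for every automorphism `g` of the algebraic closure of `ℚ`, of order `f` on `E_i`,
* for every `d < n_i [E_i : ℚ]`, `d > 0`, which is not divisible by `n_i f`, there are a place `v` of this type
and an automorphism `w` which agrees with `g` on `F` such that no set of `d` roots of `P_{i,v}` is stable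
under `w`;
* there are a place `v` of this type and an automorphism `w` which agrees with `g` on `F` such that `w ^ f`
has a fixed point in every nonempty set of roots of `P_{i,v}` which is stable under `w` and whose number
of elements is divisible by `n_i f`.
Then for all prime numbers `ℓ` outside of a set of natural density zero: ALL Tate forms in `k_i` vectors
of `V_{i,ℓ}`, `i = 1, ..., r`, are linear combinations of products of forms `J_{i,ℓ}(a x, y)` with `a ∈ E_i`,
`x` and `y` two of the vectors of the same summand, for all numbers `k_1, ..., k_r` such that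
* `k_i < n_i` if the `i`-th summand is of orthogonal type, and
* (3) for some place `w` of good reduction the roots of the product of the `P_{i,w}` are simple and the
determinants over `E_i`, `δ_i`, of the Frobenius element on the summands of unitary type with `k_i ≥ n_i` have
no multiplicative relations besides those which come from the polarizations: if `m_i(σ bar_i) = -m_i(σ)`
and `∏ σ(δ_i) ^ m_i(σ)` is a root of unity (product over these `i` and `σ` in the Galois group of `E_i`)
then `m = 0`. If there are no such summands this condition is empty.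

A Tate form is a multilinear form `φ` on which the elements `σ` of an open subgroup act by square roots of
the product of the `c_i(σ) ^ k_i`, `c_i(σ)` the multiplier of `σ` on the `i`-th summand. These are the Tate classes
on the products of the powers of the `X_i` which come from the `V_i`; since the dual of `V_i` is a twist of
`V_i`, one obtains that for these `ℓ` the map of Question 1 is an isomorphism for all motives over all finite
extensions of the base field in the tensor category generated by the `V_i` of symplectic type and those of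
unitary type (with (3)), and for the tensor constructions in which the summands of orthogonal type occur less
than `n_i` times: the elements of `E_i` and the polarizations are algebraic, so that all Tate classes
are algebraic. There are no Tate classes besides the products of Tate classes of the single summands: the
summands are independent (a product theorem of the type of Künneth for the Tate conjecture). In particular all
Tate classes vanish if some `k_i` is odd.

For `r = 1` one obtains the case of a single motive: for `bar = 1` the theorem on motives with real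
multiplication of the starting repository (`RealMultiplicationDensityOne`), for `bar ≠ 1` the theorem
on motives of unitary type.

Examples. Elliptic curves and abelian varieties of different dimensions, K3 surfaces, Calabi-Yau varieties,
factors of the cohomology of cyclic coverings (unitary type), in the same product. If the Galois groups of
the characteristic polynomials are as large as possible and independent at a place `w_0` then (1) is satisfied.
In (2) and in (3) there are only conditions on finitely many Frobenius polynomials; neither semisimplicity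
nor anything about the representations at single primes is assumed, and nothing about the monodromy groups of
the summands or about homomorphisms between them.

Idea of the proof. By the theorem on endomorphisms of motives at 100 percent of the primes the commutant
of every open subgroup on `V_{i,ℓ}` is `E_i ⊗ ℚ_ℓ` and the representation is semisimple, so by the double
commutant theorem the projection to the `i`-th summand of the Lie algebra of the image on the direct sum
generates the whole commutant of `E_i`. The Frobenius element at `w_0` splits it into root spaces of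
dimension one, so the projection contains the symplectic, orthogonal or special unitary Lie algebra. By (1)
the eigenvalues of the adjoint action of the Frobenius element on the Lie algebras of different summands are
different (except for the eigenvalue one); since these Lie algebras are perfect, the Lie algebra on the direct
sum contains the product of the Lie algebras of the summands (a theorem of the type of Goursat and Ribet). A
Tate form is killed by this product. In the basis of the eigenvectors of the Frobenius element at `w` the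
components have weights which are multiples of determinants, and (3), applied to a power of the Frobenius
element, shows that they are zero, so that the form is killed by the product of the full unitary Lie
algebras and the other ones. The invariants of a product are sums of products of invariants of the factors,
for which one has the first fundamental theorems of the symplectic, orthogonal and general linear groups, with
descent from the algebraic closure.
-/

set_option autoImplicit false

namespace Pool.Agent.Results.MP_3703a7_ag.ProductsDensityOne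

open Matrix Polynomial Filter Topology NumberField IsDedekindDomain

/-- the absolute Galois group of `K`, with its profinite (Krull) topology -/
abbrev AbsoluteGaloisGroup (K : Type) [Field K] : Type := Gal(AlgebraicClosure K/K)

/-- `σ` is an (arithmetic) Frobenius element at the prime `v` of the number field `K`: for some prime
`Q` of the algebraic closure above `v` it acts on the residue field as `x ↦ x ^ N(v)` -/
def IsFrobenius {K : Type} [Field K] [NumberField K] (v : HeightOneSpectrum (𝓞 K))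
    (σ : AbsoluteGaloisGroup K) : Prop :=
  ∃ Q : Ideal (𝓞 (AlgebraicClosure K)), Q.IsMaximal ∧
    Q.comap (algebraMap (𝓞 K) (𝓞 (AlgebraicClosure K))) = v.asIdeal ∧
    ∀ x : 𝓞 (AlgebraicClosure K), σ • x - x ^ Ideal.absNorm v.asIdeal ∈ Q

/-- `ρ` is a continuous representation of `Γ` on `ℚ_ℓ ^ N` by similitudes of the nondegenerate symmetric
or alternating form with the matrix `J`; for all `v ∉ S` which are prime to `ℓ` the characteristic
polynomial of (the image under `s` of) the geometric Frobenius elements `σ⁻¹` (`σ` arithmetic) at `v`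
is `P v`, and their multiplier is `q v` -/
def IsPolarizedSystem (K : Type) [Field K] [NumberField K] {Γ : Type} [Group Γ] [TopologicalSpace Γ]
    (s : AbsoluteGaloisGroup K →* Γ) (N ℓ : ℕ) [Fact ℓ.Prime]
    (ρ : Γ →* Matrix (Fin N) (Fin N) ℚ_[ℓ]) (J : Matrix (Fin N) (Fin N) ℚ_[ℓ])
    (S : Set (HeightOneSpectrum (𝓞 K))) (P : HeightOneSpectrum (𝓞 K) → ℚ[X])
    (q : HeightOneSpectrum (𝓞 K) → ℚ) : Prop :=
  Continuous ρ ∧ (Jᵀ = J ∨ Jᵀ = -J) ∧ J.det ≠ 0 ∧
    (∀ γ, ∃ c : ℚ_[ℓ], (ρ γ)ᵀ * J * ρ γ = c • J) ∧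
    ∀ v ∉ S, (ℓ : 𝓞 K) ∉ v.asIdeal → ∀ σ : AbsoluteGaloisGroup K, IsFrobenius v σ →
      (ρ (s σ⁻¹)).charpoly = (P v).map (algebraMap ℚ ℚ_[ℓ]) ∧
        (ρ (s σ⁻¹))ᵀ * J * ρ (s σ⁻¹) = (q v : ℚ_[ℓ]) • J

/-- the roots of `P v` are simple, and different roots have different `n`-th powers for all `n > 0` -/
def IsRegularPlace {K : Type} [Field K] [NumberField K]
    (S : Set (HeightOneSpectrum (𝓞 K))) (P : HeightOneSpectrum (𝓞 K) → ℚ[X])
    (v : HeightOneSpectrum (𝓞 K)) : Prop :=
  v ∉ S ∧ (P v).Separable ∧ ∀ n : ℕ, 0 < n → ∀ x y : ℂ,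
    aeval x (P v) = 0 → aeval y (P v) = 0 → x ^ n = y ^ n → x = y

/-- the roots of the product of the polynomials `P i v` are simple; for roots `x ≠ y` of `P i v` and roots
`z`, `u` of `P j v` one has `x / y = z / u` only if `i = j` and `(z, u) = (x, y)` or
`(z, u) = (q / y, q / x)`, `q` the multiplier of the `i`-th summand -/
def IsGenericPlace {K : Type} [Field K] [NumberField K] {r : ℕ}
    (S : Set (HeightOneSpectrum (𝓞 K))) (P : Fin r → HeightOneSpectrum (𝓞 K) → ℚ[X])
    (q : Fin r → HeightOneSpectrum (𝓞 K) → ℚ) (v : HeightOneSpectrum (𝓞 K)) : Prop :=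
  v ∉ S ∧ (∏ i, P i v).Separable ∧ ∀ (i j : Fin r) (x y z u : ℂ), aeval x (P i v) = 0 →
    aeval y (P i v) = 0 → aeval z (P j v) = 0 → aeval u (P j v) = 0 → x ≠ y → x * u = z * y →
    i = j ∧ ((z = x ∧ u = y) ∨ (z * y = (q i v : ℂ) ∧ u * x = (q i v : ℂ)))

/-- the splitting field of `Q` in the algebraic closure of `ℚ` -/
noncomputable def splittingField (Q : ℚ[X]) : Set (AlgebraicClosure ℚ) :=
  (IntermediateField.adjoin ℚ {x : AlgebraicClosure ℚ | aeval x Q = 0} :
    IntermediateField ℚ (AlgebraicClosure ℚ))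

/-- the order of the restriction of `g` to the (finite, normal) field `E` -/
noncomputable def orderOn (E : IntermediateField ℚ (AlgebraicClosure ℚ))
    (g : AbsoluteGaloisGroup ℚ) : ℕ :=
  sInf {k : ℕ | 0 < k ∧ ∀ a ∈ E, (g ^ k) a = a}

/-- `T` is a set of roots of `Q` which is stable under `w` -/
def IsStableSet (w : AbsoluteGaloisGroup ℚ) (Q : ℚ[X]) (T : Set (AlgebraicClosure ℚ)) : Prop :=
  (∀ x ∈ T, aeval x Q = 0) ∧ ∀ x ∈ T, w x ∈ T

/-- there are no relations between the determinants of a Frobenius element on the summands of unitary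
type (`bar i ≠ 1`) with `n i ≤ k i` (no condition if there are none): at some place `w ∉ S` such that the
roots of the product of the `P i w` are simple the geometric Frobenius elements have for these `i` the
characteristic polynomial `R i ∈ E i [X]` over `E i` (`R i` is monic of degree `n i`, and `R i` annihilates
them), and if `m i (σ * bar i) = - m i σ` for all `i` and all `σ` in the Galois group of `E i`, `m i = 0` for
the other `i` and `∏ σ(δ i) ^ (m i σ)` is a root of unity, `δ i` the constant term of `R i` (the determinant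
up to the sign), then `m = 0` -/
def HasFreeDeterminants (K : Type) [Field K] [NumberField K] {Γ : Type} [Group Γ]
    (s : AbsoluteGaloisGroup K →* Γ) {r : ℕ} {N : Fin r → ℕ} (n : Fin r → ℕ)
    (S : Set (HeightOneSpectrum (𝓞 K))) (P : Fin r → HeightOneSpectrum (𝓞 K) → ℚ[X])
    (ρ : ∀ (i : Fin r) (ℓ : ℕ) [Fact ℓ.Prime], Γ →* Matrix (Fin (N i)) (Fin (N i)) ℚ_[ℓ])
    {E : Fin r → IntermediateField ℚ (AlgebraicClosure ℚ)} [∀ i, FiniteDimensional ℚ (E i)]
    (ε : ∀ (i : Fin r) (ℓ : ℕ) [Fact ℓ.Prime], E i →+* Matrix (Fin (N i)) (Fin (N i)) ℚ_[ℓ])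
    (bar : ∀ i, E i ≃ₐ[ℚ] E i) (k : Fin r → ℕ) : Prop :=
  (∃ i, bar i ≠ 1 ∧ n i ≤ k i) →
  ∃ (w : HeightOneSpectrum (𝓞 K)) (R : ∀ i, (E i)[X]), w ∉ S ∧ (∏ i, P i w).Separable ∧
    (∀ i, bar i ≠ 1 → n i ≤ k i → (R i).Monic ∧ (R i).natDegree = n i ∧
      ∀ (ℓ : ℕ) [Fact ℓ.Prime], (ℓ : 𝓞 K) ∉ w.asIdeal → ∀ σ : AbsoluteGaloisGroup K,
        IsFrobenius w σ →
          ∑ j ∈ Finset.range (n i + 1), ε i ℓ ((R i).coeff j) * ρ i ℓ (s σ⁻¹) ^ j = 0) ∧
    ∀ m : ∀ i, (E i ≃ₐ[ℚ] E i) → ℤ, (∀ i, bar i = 1 ∨ k i < n i → m i = 0) →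
      (∀ i σ, m i (σ * bar i) = -m i σ) →
      (∃ M : ℕ, 0 < M ∧ (∏ i, ∏ σ : E i ≃ₐ[ℚ] E i,
        ((σ ((R i).coeff 0) : E i) : AlgebraicClosure ℚ) ^ m i σ) ^ M = 1) → ∀ i, m i = 0

/-- the multilinear forms in `k i` vectors of `ℚ_ℓ ^ (N i)`, for all `i` -/
abbrev Forms (ℓ : ℕ) [Fact ℓ.Prime] {r : ℕ} (N k : Fin r → ℕ) : Type :=
  MultilinearMap ℚ_[ℓ] (fun p : (i : Fin r) × Fin (k i) => Fin (N p.1) → ℚ_[ℓ]) ℚ_[ℓ]

/-- `φ` is a Tate form: all elements `σ` of an open subgroup of `Γ`, of multipliers `c i`, multiply `φ`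
by a square root of the product of the `c i ^ k i` (`k i` the number of the variables in the `i`-th
summand) -/
def IsTateForm {Γ : Type} [Group Γ] [TopologicalSpace Γ] {r : ℕ} {N k : Fin r → ℕ} {ℓ : ℕ}
    [Fact ℓ.Prime] (ρ : ∀ i, Γ →* Matrix (Fin (N i)) (Fin (N i)) ℚ_[ℓ])
    (J : ∀ i, Matrix (Fin (N i)) (Fin (N i)) ℚ_[ℓ]) (φ : Forms ℓ N k) : Prop :=
  ∃ U : Subgroup Γ, IsOpen (U : Set Γ) ∧ ∀ σ ∈ U, ∀ c : Fin r → ℚ_[ℓ],
    (∀ i, (ρ i σ)ᵀ * J i * ρ i σ = c i • J i) →
    ∃ d : ℚ_[ℓ], d ^ 2 = ∏ i, c i ^ k i ∧ ∀ v, φ (fun p => ρ p.1 σ *ᵥ v p) = d * φ v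

/-- every Tate form in `k i` vectors of `ℚ_ℓ ^ (N i)`, for all `i`, is a linear combination of the products
`∏ J_i(a_{i,j} v_{i,j}, v_{i,π_i j})` (one factor for every `i` and every pair `{j, π_i j}`), `π_i` a perfect
matching of the variables in the `i`-th summand and `a_{i,j} ∈ E_i` -/
def TateFormsGenerated {Γ : Type} [Group Γ] [TopologicalSpace Γ] {r : ℕ} {N : Fin r → ℕ} {ℓ : ℕ}
    [Fact ℓ.Prime] {E : Fin r → IntermediateField ℚ (AlgebraicClosure ℚ)}
    (ρ : ∀ i, Γ →* Matrix (Fin (N i)) (Fin (N i)) ℚ_[ℓ])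
    (ε : ∀ i, E i →+* Matrix (Fin (N i)) (Fin (N i)) ℚ_[ℓ])
    (J : ∀ i, Matrix (Fin (N i)) (Fin (N i)) ℚ_[ℓ]) (k : Fin r → ℕ) : Prop :=
  ∀ φ : Forms ℓ N k, IsTateForm ρ J φ →
    (fun v => φ v) ∈ Submodule.span ℚ_[ℓ]
      {f : ((p : (i : Fin r) × Fin (k i)) → Fin (N p.1) → ℚ_[ℓ]) → ℚ_[ℓ] |
        ∃ (π : ∀ i, Equiv.Perm (Fin (k i))) (a : ∀ i, Fin (k i) → E i),
          (∀ i j, π i (π i j) = j) ∧ (∀ i j, π i j ≠ j) ∧
          ∀ v, f v = ∏ i, ∏ j with j < π i j,
            ((ε i (a i j) *ᵥ v ⟨i, j⟩) ⬝ᵥ J i *ᵥ v ⟨i, π i j⟩)}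

/-- the set `A` of prime numbers has natural density zero -/
def HasDensityZero (A : Set ℕ) : Prop :=
  Tendsto (fun n : ℕ => (Nat.card {ℓ : ℕ // ℓ ≤ n ∧ ℓ ∈ A} : ℝ) / (Nat.primeCounting n : ℝ))
    atTop (𝓝 0)

/-- **The Tate conjecture for products of motives of all types at 100 percent of the primes `ℓ`.** -/
theorem result (K : Type) [Field K] [NumberField K] (Γ : Type) [Group Γ] [TopologicalSpace Γ]
    [IsTopologicalGroup Γ] [CompactSpace Γ] (s : AbsoluteGaloisGroup K →* Γ) (hs : Continuous s)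
    (S : Set (HeightOneSpectrum (𝓞 K))) (hS : S.Finite) (r : ℕ) (hr : 0 < r) (N : Fin r → ℕ)
    (P : Fin r → HeightOneSpectrum (𝓞 K) → ℚ[X]) (q : Fin r → HeightOneSpectrum (𝓞 K) → ℚ)
    (ρ : ∀ (i : Fin r) (ℓ : ℕ) [Fact ℓ.Prime], Γ →* Matrix (Fin (N i)) (Fin (N i)) ℚ_[ℓ])
    (J : ∀ (i : Fin r) (ℓ : ℕ) [Fact ℓ.Prime], Matrix (Fin (N i)) (Fin (N i)) ℚ_[ℓ])
    (hρ : ∀ (i : Fin r) (ℓ : ℕ) [Fact ℓ.Prime],
      IsPolarizedSystem K s (N i) ℓ (ρ i ℓ) (J i ℓ) S (P i) (q i))
    -- the coefficients
    (E : Fin r → IntermediateField ℚ (AlgebraicClosure ℚ)) [∀ i, FiniteDimensional ℚ (E i)]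
    [∀ i, Normal ℚ (E i)] (n : Fin r → ℕ) (hn : ∀ i, 0 < n i)
    (hN : ∀ i, N i = n i * Module.finrank ℚ (E i))
    (ε : ∀ (i : Fin r) (ℓ : ℕ) [Fact ℓ.Prime], E i →+* Matrix (Fin (N i)) (Fin (N i)) ℚ_[ℓ])
    (hε : ∀ (i : Fin r) (ℓ : ℕ) [Fact ℓ.Prime] (a : E i) (γ : Γ),
      ε i ℓ a * ρ i ℓ γ = ρ i ℓ γ * ε i ℓ a)
    (htr : ∀ (i : Fin r) (ℓ : ℕ) [Fact ℓ.Prime] (a : E i),
      (ε i ℓ a).trace = (n i : ℚ_[ℓ]) * ((Algebra.trace ℚ (E i) a : ℚ) : ℚ_[ℓ]))
    (bar : ∀ i, E i ≃ₐ[ℚ] E i)
    (hεJ : ∀ (i : Fin r) (ℓ : ℕ) [Fact ℓ.Prime] (a : E i),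
      (ε i ℓ a)ᵀ * J i ℓ = J i ℓ * ε i ℓ (bar i a))
    -- the places
    (w₀ : HeightOneSpectrum (𝓞 K)) (hw₀ : IsGenericPlace S P q w₀)
    (m : Fin r → ℕ) (u : ∀ i, Fin (m i + 1) → HeightOneSpectrum (𝓞 K))
    (hu : ∀ i j, IsRegularPlace S (P i) (u i j))
    (h1 : ∀ (i : Fin r) (g : AbsoluteGaloisGroup ℚ) (d : ℕ), 0 < d → d < N i →
      ¬ n i * orderOn (E i) g ∣ d →
      ∃ (v : HeightOneSpectrum (𝓞 K)) (w : AbsoluteGaloisGroup ℚ), IsRegularPlace S (P i) v ∧
        (∀ x, (∀ j, x ∈ splittingField (P i (u i j))) → w x = g x) ∧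
        ∀ T, IsStableSet w (P i v) T → T.ncard ≠ d)
    (h2 : ∀ (i : Fin r) (g : AbsoluteGaloisGroup ℚ),
      ∃ (v : HeightOneSpectrum (𝓞 K)) (w : AbsoluteGaloisGroup ℚ), IsRegularPlace S (P i) v ∧
        (∀ x, (∀ j, x ∈ splittingField (P i (u i j))) → w x = g x) ∧
        ∀ T, IsStableSet w (P i v) T → T.Nonempty → n i * orderOn (E i) w ∣ T.ncard →
          ∃ x ∈ T, (w ^ orderOn (E i) w) x = x) :
    HasDensityZero {ℓ | ∃ _ : Fact ℓ.Prime, ∃ k : Fin r → ℕ,
      (∀ i, bar i = 1 → k i < n i ∨ (J i ℓ)ᵀ = -J i ℓ) ∧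
      HasFreeDeterminants K s n S P ρ ε bar k ∧
      ¬ TateFormsGenerated (fun i => ρ i ℓ) (fun i => ε i ℓ) (fun i => J i ℓ) k} := by
  -- the tasks
  have hFROB : Y142.ZO.S_FROB := Y405.ZO.t
  have hINT : Y142.ZI.S_INT := Y484.ZI.t1
  have hCHEB : Y142.ZI.S_CHEB := Y726.ZI.t1
  have hDENS2 : Y142.ZI.S_DENS2 := Y681.ZI.t hCHEB
  have hMULTI : Y142.ZI.S_MULTI := Y537.ZI.t
  have hLF : Y142.SS.S_LF := Y255.SS.t
  have hCF : Y142.SS.S_CF := Y297.SS.t hLF
  have hLOC : Y142.SS.S_LOC := Y708.SS.Loc.t hCF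
  have hLOGR : Y142.SS.S_LOGR := Y936.SS.t
  have hKRS : Y142.SS.S_KRS := Y518.SS.t
  have hCHARA : Y142.SS.S_CHARA := Y737.SS.Chara.t
  have hBADD : Y142.ZD.S_BADD := Y614.ZD.t
  have hSUB : Y142.ZD.S_SUB := Y100.ZD.t
  have hSUBF : Y142.SI.S_SUBF := Y932.SI.Subf.t hLF hCF
  have hEF : Y142.SI.S_EF := Y421.SI.EF.t hLOC
  have hTRD : Y142.SI.S_TRD := Y641.SI.t
  have hENDE : Y142.SI.S_ENDE := Y949.SI.t
  have hgs : ∀ (i : Fin r) (ℓ : ℕ) [Fact ℓ.Prime], Y142.SI.GenSys K s (N i) ℓ (ρ i ℓ) S (P i) :=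
    fun i ℓ _ => ⟨(hρ i ℓ).1, fun v hv hvℓ σ hσ => ((hρ i ℓ).2.2.2.2 v hv hvℓ σ hσ).1⟩
  have hfs : ∀ (i : Fin r) (ℓ : ℕ) [Fact ℓ.Prime],
      Y142.SU.FormSys K s (N i) ℓ (ρ i ℓ) (J i ℓ) S (q i) := fun i ℓ _ =>
    ⟨(hρ i ℓ).2.1, (hρ i ℓ).2.2.1, (hρ i ℓ).2.2.2.1,
      fun v hv hvℓ σ hσ => ((hρ i ℓ).2.2.2.2 v hv hvℓ σ hσ).2⟩
  have hsys' : ∀ (i : Fin r) (ℓ : ℕ) [Fact ℓ.Prime],
      Y142.SS.Sys K (N i) ℓ ((ρ i ℓ).comp s) S (P i) := fun i ℓ _ =>
    ⟨(hgs i ℓ).1.comp hs, fun v hv hvℓ σ hσ => (hgs i ℓ).2 v hv hvℓ σ hσ⟩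
  have hnice : ∀ i v, IsRegularPlace S (P i) v → Y142.ZS.NiceP S (P i) v := fun i v hv =>
    Y142.SS.nice_of_complexA (fun ℓ _ => (ρ i ℓ).comp s) (fun ℓ _ => hsys' i ℓ) hv.1 hv.2.1 hv.2.2
  have hLf : ∀ (i : Fin r) (j : Fin (m i + 1)) (x : AlgebraicClosure ℚ),
      x ∈ Y142.ZI.Lf (P i (u i j)) → x ∈ splittingField (P i (u i j)) := by
    intro i j x hx
    have h2 : (P i (u i j)).rootSet (AlgebraicClosure ℚ) =
        {x : AlgebraicClosure ℚ | aeval x (P i (u i j)) = 0} := by
      ext y
      exact mem_rootSet_of_ne (hu i j).2.1.ne_zero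
    unfold Y142.ZI.Lf at hx
    rw [h2] at hx
    exact hx
  have hA : ∀ (i : Fin r) (g w : AbsoluteGaloisGroup ℚ),
      (∀ x, (∀ j, x ∈ splittingField (P i (u i j))) → w x = g x) →
      w⁻¹ * g ∈ Subgroup.closure (⋃ j, Y142.SS.Fix (P i (u i j))) := by
    intro i g w hw
    refine Y142.SS.field_mem _ (fun j => (hu i j).2.1.ne_zero) fun x hx => ?_
    rw [AlgEquiv.mul_apply, ← hw x fun j => hLf i j x (hx j), ← AlgEquiv.mul_apply, inv_mul_cancel,
      AlgEquiv.one_apply]
  have hmain := K3h32.PD.densityPD hLOC hLOGR hKRS hCHARA hMULTI hFROB hINT hDENS2 hBADD hSUB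
    hSUBF hEF hTRD hENDE hS s hs hr ρ hgs E n hn hN ε hε htr J hfs bar hεJ hw₀.1 hw₀.2.1
    (fun i x y z u hx hy hz hu hxy hxu => (hw₀.2.2 i i x y z u hx hy hz hu hxy hxu).2)
    (fun i j hij x y z u hx hy hz hu hxy hxu =>
      hij (hw₀.2.2 i j x y z u hx hy hz hu hxy hxu).1)
    m u (fun i j => hnice i _ (hu i j))
    (by
      intro i g d hd hdN hnd
      obtain ⟨v, w, hv, hw, hT⟩ := h1 i g d hd hdN hnd
      exact ⟨v, hnice i v hv, w, fun T hT1 hT2 => hT T ⟨hT1, hT2⟩, hA i g w hw⟩)
    (by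
      intro i g
      obtain ⟨v, w, hv, hw, hT⟩ := h2 i g
      exact ⟨v, hnice i v hv, w, fun T hT1 hne hT2 hd => hT T ⟨hT1, hT2⟩ hne hd, hA i g w hw⟩)
  refine Y142.ZI.DensityZero.mono hmain ?_
  rintro ℓ ⟨hp, k, hlow, hfree, hno⟩
  refine ⟨hp, k, hlow, fun hex => ?_, ?_⟩
  · obtain ⟨w, R, hw, hsep, hR, hD⟩ := hfree hex
    exact ⟨w, R, hw, hsep, fun i hi => (hR i hi.1 hi.2).1, fun i hi => (hR i hi.1 hi.2).2.1,
      fun i hi => (hR i hi.1 hi.2).2.2, fun m hm => hD m fun i hi => hm i (by
        rintro ⟨h3, h4⟩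
        rcases hi with hi | hi
        · exact h3 hi
        · omega)⟩
  · by_contra hcon
    apply hno
    intro φ hφ
    by_contra hφ'
    apply hcon
    refine ⟨φ, hφ, fun hmem => hφ' ?_⟩
    -- from the products of functions to functions of all vectors
    let L : ((∀ i, Fin (k i) → Fin (N i) → ℚ_[ℓ]) → ℚ_[ℓ]) →ₗ[ℚ_[ℓ]]
        (((p : (i : Fin r) × Fin (k i)) → Fin (N p.1) → ℚ_[ℓ]) → ℚ_[ℓ]) :=
      LinearMap.funLeft ℚ_[ℓ] ℚ_[ℓ] (fun v i j => v ⟨i, j⟩)
    have hL : (fun v => φ v) = L (fun x => φ (fun p => x p.1 p.2)) := rfl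
    rw [hL]
    have hle : (K3h32.PD.Pr fun i => K3h32.PD.Pairs ℚ_[ℓ] (ε i ℓ) (J i ℓ) (k i)).map L ≤
        Submodule.span ℚ_[ℓ]
      {f : ((p : (i : Fin r) × Fin (k i)) → Fin (N p.1) → ℚ_[ℓ]) → ℚ_[ℓ] |
        ∃ (π : ∀ i, Equiv.Perm (Fin (k i))) (a : ∀ i, Fin (k i) → E i),
          (∀ i j, π i (π i j) = j) ∧ (∀ i j, π i j ≠ j) ∧
          ∀ v, f v = ∏ i, ∏ j with j < π i j,
            ((ε i ℓ (a i j) *ᵥ v ⟨i, j⟩) ⬝ᵥ J i ℓ *ᵥ v ⟨i, π i j⟩)} := by
      unfold K3h32.PD.Pr
      rw [Submodule.map_span, Submodule.span_le]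
      rintro _ ⟨g, ⟨h, hh, hg⟩, rfl⟩
      choose π a hπ1 hπ2 hπ3 using hh
      refine Submodule.subset_span ⟨π, a, hπ1, hπ2, fun v => ?_⟩
      show g (fun i j => v ⟨i, j⟩) = _
      rw [hg]
      exact Finset.prod_congr rfl fun i _ => hπ3 i _
    exact hle (Submodule.mem_map_of_mem hmem)

end Pool.Agent.Results.MP_3703a7_ag.ProductsDensityOne
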