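import Pool.Agent.K3h45.EB.Family

/-!
# The Tate conjecture for products of powers of varieties with a simple even Jordan block of inertia

Let `W` be a Weil cohomology theory with algebraically closed coefficients (étale cohomology with
coefficients in the closure of `ℚ_ℓ`) on a class of smooth proper varieties over the algebraic
closure of a number field `F`, with an action of a group `Γ` (the Galois group of `F`) on the
cohomology of the varieties under consideration; `χ` is the character by which `Γ` acts on the
inverse of the Tate twist.

Let `X_i` be varieties of odd dimension for which numerical and homological equivalence coincide,
whose transcendental cohomology `T_i` (the orthogonal complement of all algebraic classes) is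
concentrated in the middle degree and irreducible under all subgroups of finite index of `Γ`. For
every `i` let there be one element `g_i` of `Γ` (an element of the inertia group of a place where `Z`
and the `X_j` with `j ≠ i` have good reduction) which acts trivially on the cohomology of `Z`, on the
cohomology of the `X_j` with `j ≠ i` and by `χ` and whose action on `T_i` is unipotent and

* has Jordan blocks only of size one and of even sizes, where blocks of size one do occur and for
  some even number `s` there is exactly one block of size `s` (no condition on the other blocks), or
* has only one Jordan block; then let `T_i` have rank two or let the eigenvalues of some element of
  `Γ` (a Frobenius element) on `T_i` not be a geometric progression.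

Examples: places where the reduction of `X_i` has one ordinary double point (the sizes are
`2, 1, …, 1`); places where a Calabi-Yau threefold degenerates such that the third power of the
monodromy operator `N` is not zero and the graded piece of weight three of the limit is not zero
(the sizes are `4, 2, …, 2, 1, …, 1`); maximally unipotent reduction of Calabi-Yau threefolds with
`h^{2,1} = 1`.

Then the Tate conjecture, for cycles of all codimensions, holds for the product of `Z` with arbitrary
powers of the `X_i` if and only if it holds for `Z`. In particular it holds for the products of the
powers of the `X_i`, where `Z` is a point.

The proof: let `L` be the Lie algebra of the skew operators on `T = T_i` which kill all the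
multilinear maps from `T` to the cohomology of the other factors which are equivariant under some
subgroup of finite index. The logarithm `e` of `g_i` on `T` is in `L`, as `g_i` acts trivially on
the other factors. As `T` is irreducible under all subgroups of finite index, the trace form is
nondegenerate on `L` and `e` is a member of a triple `(e, h, f)` in `L` (Jacobson-Morozov). The
weights of `h` on `T` are odd on the blocks of even size and zero on the blocks of size one, and the
weight `s - 1` has a highest weight vector which is unique up to scalars. In the first
case the elements of `L` of odd weight, together with the uniqueness of this vector, give an element
of `L` of rank at most two and of square zero; in the second case `L` is the principal `sl_2`, which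
is excluded by the condition on the eigenvalues, or it contains a power `e ^ k` with odd `k ≥ 3` and
so all of them. So `L` is the whole symplectic Lie algebra, and by the first fundamental theorem the Tate classes are combinations of
products of algebraic classes on the factors `X_i`, of the transcendental parts of the diagonals of
pairs of factors `X_i` and of Tate classes of the remaining factor.
-/

universe u

namespace Pool.Agent.Results.MP_3703a7_ag.SimpleEvenBlock

open Pool.Agent.H914 Pool.Agent.H281R3.HT Pool.Agent.TH125.Gal Pool.Agent.K3h45.EB

/-- **The Tate conjecture for products of powers of varieties with a simple even Jordan block of
inertia.** -/
theorem result {k : Type u} [Field k] {𝒱 : VarClass k} {ops : CycleOps 𝒱}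
    (W : WeilCohomology.{u, 0} ops) [IsAlgClosed W.K] {Γ : Type} [Group Γ] (χ : Γ →* W.Kˣ)
    {ι : Type} (X : ι → GVar W Γ) (Z : GVar W Γ) (h : EvenBlockFamily χ X Z) (S : Set ι)
    (Y : GVar W Γ) (hY : GTower X Z S Y) : TateConjecture χ Y ↔ TateConjecture χ Z :=
  tate_eb h hY

end Pool.Agent.Results.MP_3703a7_ag.SimpleEvenBlock
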